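import Pool.Agent.H.MP_556fef_co.B

set_option autoImplicit false

namespace Pool.Agent.Results.MP_556fef_co.Full

open Polynomial

theorem result (r : ℕ) (c : ℚ → Fin r) (P : Finset ℤ[X]) (hP : ∀ p ∈ P, p.eval 0 = 0) :
    ∃ (x y : ℚ) (k : Fin r), x ≠ 0 ∧ y ≠ 0 ∧ c x = k ∧ c y = k ∧ c (x * y) = k ∧
      ∀ p ∈ P, c (x + aeval y p) = k := by
  obtain ⟨x, y, h1, h2, h3, h4, h5⟩ := Pool.Agent.H.MP_556fef_co.rat_main c P
    fun q hq => by rw [coeff_zero_eq_eval_zero]; exact hP q hq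
  exact ⟨x, y, c x, h1, h2, rfl, h3, h4, h5⟩

end Pool.Agent.Results.MP_556fef_co.Full
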